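import Pool.Agent.Helper99.Pak.ExcConj

/-! Piece X of MP_005844_an, third part: trichotomy. -/

namespace Pool.Agent.Helper63.Pak

open IntermediateField

section PolyFacts

theorem h99_eq_C_mul_X_pow_of_roots {p : Polynomial ℂ} (hp : p ≠ 0)
    (h : ∀ z : ℂ, z ≠ 0 → p.eval z ≠ 0) :
    ∃ (c : ℂ) (m : ℕ), c ≠ 0 ∧ p = Polynomial.C c * Polynomial.X ^ m := by
  obtain ⟨q, hq, hnd⟩ := Polynomial.exists_eq_pow_rootMultiplicity_mul_and_not_dvd p hp 0
  set m := p.rootMultiplicity 0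
  rw [Polynomial.C_0, sub_zero] at hq hnd
  have hq0 : q ≠ 0 := by
    rintro rfl
    exact hnd (dvd_zero _)
  have hdeg : q.degree = 0 := by
    by_contra hd
    obtain ⟨z, hz⟩ := IsAlgClosed.exists_root q hd
    by_cases hz0 : z = 0
    · subst hz0
      exact hnd (Polynomial.X_dvd_iff.2 (by rw [Polynomial.coeff_zero_eq_eval_zero]; exact hz))
    · refine h z hz0 ?_
      rw [hq, Polynomial.eval_mul, show q.eval z = 0 from hz, mul_zero]
  have hc := Polynomial.eq_C_of_degree_eq_zero hdeg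
  refine ⟨q.coeff 0, m, ?_, ?_⟩
  · intro h0
    rw [h0, Polynomial.C_0] at hc
    exact hq0 hc
  · rw [← hc, mul_comm]
    exact hq

theorem h99_mobConj_X_pow {c : ℂ} (hc : c ≠ 0) {d : ℕ} (hd : 2 ≤ d) :
    MobConj (RatFunc.C c * RatFunc.X ^ d) (RatFunc.X ^ d) := by
  obtain ⟨l, hl⟩ := IsAlgClosed.exists_pow_nat_eq c (n := d - 1) (by omega)
  have hl0 : l ≠ 0 := by
    rintro rfl
    rw [zero_pow (by omega)] at hl
    exact hc hl.symm
  refine ⟨algebraMap (Polynomial ℂ) (RatFunc ℂ) (Polynomial.C l * Polynomial.X), ?_, ?_⟩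
  · rw [h99_rdeg_algebraMap, Polynomial.natDegree_C_mul hl0, Polynomial.natDegree_X]
  · rw [h99_comp_X_pow, h99_comp_algebraMap, Polynomial.eval₂_mul, Polynomial.eval₂_C, Polynomial.eval₂_X,
      map_mul, RatFunc.algebraMap_C, RatFunc.algebraMap_X, mul_pow, ← mul_assoc, ← map_mul,
      ← map_pow]
    congr 2
    rw [← hl]
    nth_rewrite 1 [← pow_one l]
    rw [← pow_add]
    congr 1
    omega

theorem h99_mobConj_inv_X_pow {c : ℂ} (hc : c ≠ 0) {d : ℕ} :
    MobConj (RatFunc.C c * (RatFunc.X ^ d)⁻¹) ((RatFunc.X ^ d)⁻¹) := by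
  obtain ⟨l, hl⟩ := IsAlgClosed.exists_pow_nat_eq c⁻¹ (n := d + 1) (by omega)
  have hl0 : l ≠ 0 := by
    rintro rfl
    rw [zero_pow (by omega)] at hl
    exact inv_ne_zero hc hl.symm
  refine ⟨algebraMap (Polynomial ℂ) (RatFunc ℂ) (Polynomial.C l * Polynomial.X), ?_, ?_⟩
  · rw [h99_rdeg_algebraMap, Polynomial.natDegree_C_mul hl0, Polynomial.natDegree_X]
  · rw [h99_comp_inv_X_pow, h99_comp_algebraMap, Polynomial.eval₂_mul, Polynomial.eval₂_C,
      Polynomial.eval₂_X, map_mul, RatFunc.algebraMap_C, RatFunc.algebraMap_X, mul_pow, mul_inv,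
      ← mul_assoc, ← map_mul, ← map_pow, ← map_inv₀]
    congr 2
    refine eq_inv_of_mul_eq_one_left ?_
    rw [show l * c * l ^ d = c * l ^ (d + 1) by ring, hl, mul_inv_cancel₀ hc]

end PolyFacts

variable {Ω : Type} [Field Ω] [Algebra ℂ Ω] [CurveUniverse Ω]
variable {A B : RatFunc ℂ}

theorem h99_ratFunc_of_pair {A : RatFunc ℂ} (hA : 1 ≤ rdeg A)
    (h : pmap A ⁻¹' {((0 : ℂ) : OnePoint ℂ), OnePoint.infty} =
      {((0 : ℂ) : OnePoint ℂ), OnePoint.infty}) :
    ∃ c : ℂ, c ≠ 0 ∧ (A = RatFunc.C c * RatFunc.X ^ (rdeg A) ∨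
      A = RatFunc.C c * (RatFunc.X ^ (rdeg A))⁻¹) := by
  have hmem : ∀ z : ℂ, pmap A ((z : ℂ) : OnePoint ℂ) ∈
      ({((0 : ℂ) : OnePoint ℂ), OnePoint.infty} : Set (OnePoint ℂ)) → z = 0 := by
    intro z hz
    have h1 : ((z : ℂ) : OnePoint ℂ) ∈ pmap A ⁻¹' {((0 : ℂ) : OnePoint ℂ), OnePoint.infty} := hz
    rw [h] at h1
    rcases h1 with h1 | h1
    · exact OnePoint.coe_injective h1
    · exact absurd h1 (OnePoint.coe_ne_infty z)
  have hD : ∀ z : ℂ, z ≠ 0 → A.denom.eval z ≠ 0 := by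
    intro z hz hd
    refine hz (hmem z ?_)
    rw [h99_pmap_some, if_pos hd]
    exact Or.inr rfl
  have hN : ∀ z : ℂ, z ≠ 0 → A.num.eval z ≠ 0 := by
    intro z hz hn
    refine hz (hmem z ?_)
    rw [h99_pmap_some, if_neg (hD z hz), hn, zero_div]
    exact Or.inl rfl
  have hA0 : A ≠ 0 := by
    rintro rfl
    rw [rdeg, RatFunc.num_zero, RatFunc.denom_zero] at hA
    simp at hA
  obtain ⟨c, m, hc, hm⟩ := h99_eq_C_mul_X_pow_of_roots (RatFunc.num_ne_zero hA0) hN
  obtain ⟨c', n, hc', hn⟩ := h99_eq_C_mul_X_pow_of_roots (RatFunc.denom_ne_zero A) hD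
  have hc'1 : c' = 1 := by
    have h1 := RatFunc.monic_denom A
    rw [hn, Polynomial.Monic, Polynomial.leadingCoeff_mul, Polynomial.leadingCoeff_C,
      Polynomial.leadingCoeff_X_pow, mul_one] at h1
    exact h1
  rw [hc'1, Polynomial.C_1, one_mul] at hn
  have hcop := RatFunc.isCoprime_num_denom A
  have hmn : m = 0 ∨ n = 0 := by
    by_contra hcon
    push Not at hcon
    have h1 : (Polynomial.X : Polynomial ℂ) ∣ A.num := by
      rw [hm]
      exact (dvd_pow_self _ hcon.1).mul_left _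
    have h2 : (Polynomial.X : Polynomial ℂ) ∣ A.denom := by
      rw [hn]
      exact dvd_pow_self _ hcon.2
    exact Polynomial.not_isUnit_X (hcop.isUnit_of_dvd' h1 h2)
  refine ⟨c, hc, ?_⟩
  have hdeg : rdeg A = max m n := by
    rw [rdeg, hm, hn, Polynomial.natDegree_C_mul hc, Polynomial.natDegree_X_pow,
      Polynomial.natDegree_X_pow]
  have hAeq := RatFunc.num_div_denom A
  rw [hm, hn, map_mul, map_pow, map_pow, RatFunc.algebraMap_C, RatFunc.algebraMap_X] at hAeq
  rcases hmn with h0 | h0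
  · right
    rw [hdeg, h0, Nat.zero_max]
    rw [h0, pow_zero, mul_one, div_eq_mul_inv] at hAeq
    exact hAeq.symm
  · left
    rw [hdeg, h0, Nat.max_zero]
    rw [h0, pow_zero, div_one] at hAeq
    exact hAeq.symm

theorem isPow_of_pair (hPT : PTFacts Ω) (hA : 2 ≤ rdeg A) {a b : OnePoint ℂ} (hab : a ≠ b)
    (h : pmap A ⁻¹' {a, b} = {a, b}) : IsPow A := by
  obtain ⟨A', φ, hφ, ha, hb⟩ := h99_exists_conj_move2 hPT (show 1 ≤ rdeg A by omega) hab
  have h1 := hφ.preimage h
  rw [Set.image_pair, ha, hb] at h1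
  have hdeg : rdeg A' = rdeg A := hφ.2.1
  obtain ⟨c, hc, h2⟩ := h99_ratFunc_of_pair (by omega) h1
  rw [hdeg] at h2
  rcases h2 with h2 | h2
  · left
    refine MobConj.trans (by omega) hφ.1 ?_
    rw [h2]
    exact h99_mobConj_X_pow hc hA
  · right
    refine MobConj.trans (by omega) hφ.1 ?_
    rw [h2]
    exact h99_mobConj_inv_X_pow hc

theorem h99_poly_of_infty {A : RatFunc ℂ}
    (h : pmap A ⁻¹' {OnePoint.infty} = {OnePoint.infty}) :
    A = algebraMap (Polynomial ℂ) (RatFunc ℂ) A.num := by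
  have hD : ∀ z : ℂ, A.denom.eval z ≠ 0 := by
    intro z hd
    have h1 : ((z : ℂ) : OnePoint ℂ) ∈ pmap A ⁻¹' {OnePoint.infty} := by
      rw [Set.mem_preimage, h99_pmap_some, if_pos hd]
      rfl
    rw [h] at h1
    exact OnePoint.coe_ne_infty z h1
  have hdeg : A.denom.degree = 0 := by
    by_contra hd
    obtain ⟨z, hz⟩ := IsAlgClosed.exists_root _ hd
    exact hD z hz
  have h1 : A.denom = 1 := by
    rw [Polynomial.eq_C_of_degree_eq_zero hdeg]
    have h2 := RatFunc.monic_denom A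
    rw [Polynomial.eq_C_of_degree_eq_zero hdeg, Polynomial.Monic, Polynomial.leadingCoeff_C] at h2
    rw [h2, Polynomial.C_1]
  have hAeq := RatFunc.num_div_denom A
  rw [h1, map_one, div_one] at hAeq
  exact hAeq.symm

theorem h99_centre_poly (N : Polynomial ℂ) (hN : 2 ≤ N.natDegree) :
    ∃ P : Polynomial ℂ, P.natDegree = N.natDegree ∧ P.coeff (P.natDegree - 1) = 0 ∧
      MobConj (algebraMap (Polynomial ℂ) (RatFunc ℂ) N) (algebraMap (Polynomial ℂ) (RatFunc ℂ) P) := by
  set d := N.natDegree with hd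
  have hlead : N.coeff d ≠ 0 := by
    rw [hd, Polynomial.coeff_natDegree, Polynomial.leadingCoeff_ne_zero]
    rintro rfl
    rw [Polynomial.natDegree_zero] at hd
    omega
  set c : ℂ := N.coeff (d - 1) / (d * N.coeff d) with hc
  obtain ⟨N', hN'⟩ : ∃ N' : Polynomial ℂ, N' = N + Polynomial.C c := ⟨_, rfl⟩
  have hN'd : N'.natDegree = d := by
    rw [hN', Polynomial.natDegree_add_C]
  obtain ⟨P, hP⟩ : ∃ P : Polynomial ℂ, P = Polynomial.taylor (-c) N' := ⟨_, rfl⟩
  have hPd : P.natDegree = d := by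
    rw [hP, Polynomial.natDegree_taylor, hN'd]
  refine ⟨P, hPd, ?_, ?_⟩
  · rw [hPd, hP, Polynomial.taylor_coeff]
    have hcoef : ∀ n, 1 ≤ n → N'.coeff n = N.coeff n := by
      intro n hn
      rw [hN', Polynomial.coeff_add, Polynomial.coeff_C, if_neg (by omega), add_zero]
    have h2 : Polynomial.hasseDeriv (d - 1) N' =
        Polynomial.C (N.coeff (d - 1)) + Polynomial.C (d * N.coeff d) * Polynomial.X := by
      ext n
      rw [Polynomial.hasseDeriv_coeff, Polynomial.coeff_add, Polynomial.coeff_C,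
        Polynomial.coeff_C_mul, Polynomial.coeff_X]
      rcases n with _ | _ | n
      · rw [zero_add, Nat.choose_self, hcoef _ (by omega)]
        simp
      · rw [show 0 + 1 + (d - 1) = d by omega, hcoef _ (by omega)]
        have h3 : d.choose (d - 1) = d := by
          rw [Nat.choose_symm_of_eq_add (show d = (d - 1) + 1 by omega), Nat.choose_one_right]
        rw [h3]
        simp
      · rw [if_neg (by omega), if_neg (by omega), Polynomial.coeff_eq_zero_of_natDegree_lt (by omega)]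
        simp
    rw [h2]
    simp only [Polynomial.eval_add, Polynomial.eval_C, Polynomial.eval_mul, Polynomial.eval_X]
    have hd0 : (d : ℂ) ≠ 0 := by
      have : d ≠ 0 := by omega
      exact_mod_cast this
    rw [hc]
    field_simp
    ring
  · refine ⟨algebraMap (Polynomial ℂ) (RatFunc ℂ) (Polynomial.X + Polynomial.C c), ?_, ?_⟩
    · rw [h99_rdeg_algebraMap, Polynomial.natDegree_X_add_C]
    · rw [h99_comp_algebraMap_algebraMap, h99_comp_algebraMap_algebraMap, hP, Polynomial.taylor_apply,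
        Polynomial.comp_assoc, hN']
      congr 1
      have h3 : (Polynomial.X + Polynomial.C (-c)).comp (Polynomial.X + Polynomial.C c) =
          (Polynomial.X : Polynomial ℂ) := by
        rw [Polynomial.add_comp, Polynomial.X_comp, Polynomial.C_comp, add_assoc,
          ← Polynomial.C_add, add_neg_cancel, Polynomial.C_0, add_zero]
      rw [h3, Polynomial.comp_X, Polynomial.add_comp, Polynomial.X_comp, Polynomial.C_comp]

/-- trichotomy: no exceptional points, a power, or (conjugate to) a centred polynomial -/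
theorem exc_trichotomy (hPT : PTFacts Ω) (hA : 2 ≤ rdeg A) :
    NoExc A ∨ IsPow A ∨ ∃ P : Polynomial ℂ, 2 ≤ P.natDegree ∧ P.coeff (P.natDegree - 1) = 0 ∧
      MobConj A (algebraMap (Polynomial ℂ) (RatFunc ℂ) P) := by
  by_cases hE : NoExc A
  · exact Or.inl hE
  right
  rw [NoExc] at hE
  push Not at hE
  obtain ⟨T, hTfin, hTne, hT⟩ := hE
  obtain ⟨hfin, hcard⟩ := h99_totram_bound hPT hA
  have hsub := h99_subset_totram hPT hA hTfin (by rw [hT])
  have hTcard : T.ncard ≤ 2 := (Set.ncard_le_ncard hsub hfin).trans hcard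
  have hTpos : 0 < T.ncard := (Set.ncard_pos hTfin).2 hTne
  rcases (show T.ncard = 1 ∨ T.ncard = 2 by omega) with h1 | h1
  · right
    obtain ⟨b, rfl⟩ := Set.ncard_eq_one.1 h1
    obtain ⟨A', φ, hφ, hb⟩ := h99_exists_conj_move hPT (show 1 ≤ rdeg A by omega) b
    have h2 := hφ.preimage hT
    rw [Set.image_singleton, hb] at h2
    have hpoly := h99_poly_of_infty h2
    have hdeg : rdeg A' = rdeg A := hφ.2.1
    have hN : 2 ≤ A'.num.natDegree := by
      rw [← h99_rdeg_algebraMap, ← hpoly, hdeg]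
      exact hA
    obtain ⟨P, hPd, hPc, hPm⟩ := h99_centre_poly A'.num hN
    refine ⟨P, by rw [hPd]; exact hN, hPc, MobConj.trans (by omega) hφ.1 ?_⟩
    rw [← hpoly] at hPm
    exact hPm
  · left
    obtain ⟨a, b, hab, rfl⟩ := Set.ncard_eq_two.1 h1
    exact isPow_of_pair hPT hA hab hT

theorem NoExc.iter (hPT : PTFacts Ω) (hA : 2 ≤ rdeg A) (hE : NoExc A) {q : ℕ} (hq : 1 ≤ q) :
    NoExc (Pak.iter A q) := by
  intro T hTfin hTne hT
  have hit : ∀ p, pmap (Pak.iter A q) p = (pmap A)^[q] p := pmap_iter hPT (by omega) q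
  have hT' : ∀ x, (pmap A)^[q] x ∈ T ↔ x ∈ T := by
    intro x
    have := Set.ext_iff.1 hT x
    rwa [Set.mem_preimage, hit] at this
  set U : Set (OnePoint ℂ) := {x | ∃ j < q, (pmap A)^[j] x ∈ T} with hU
  refine hE U ?_ ?_ ?_
  · have h1 : U ⊆ ⋃ j ∈ Set.Iio q, ⋃ t ∈ T, (pmap A)^[j] ⁻¹' {t} := by
      rintro x ⟨j, hj, hx⟩
      simp only [Set.mem_iUnion]
      exact ⟨j, hj, _, hx, rfl⟩
    exact ((Set.finite_Iio q).biUnion fun j _ => hTfin.biUnion fun t _ =>
      iter_fibre_finite hPT (by omega) j t).subset h1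
  · obtain ⟨t, ht⟩ := hTne
    exact ⟨t, 0, by omega, ht⟩
  · ext x
    rw [Set.mem_preimage, hU, Set.mem_ofPred_eq, Set.mem_ofPred_eq]
    constructor
    · rintro ⟨j, hj, hx⟩
      rw [← Function.iterate_succ_apply] at hx
      by_cases hjq : j + 1 < q
      · exact ⟨j + 1, hjq, hx⟩
      · have : j.succ = q := by omega
        rw [this] at hx
        exact ⟨0, by omega, (hT' x).1 hx⟩
    · rintro ⟨j, hj, hx⟩
      rcases j with _ | j
      · refine ⟨q - 1, by omega, ?_⟩
        rw [← Function.iterate_succ_apply, show (q - 1).succ = q by omega]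
        exact (hT' x).2 hx
      · refine ⟨j, by omega, ?_⟩
        rw [← Function.iterate_succ_apply]
        exact hx

/-- a power map has a totally invariant pair -/
theorem IsPow.not_noExc (hPT : PTFacts Ω) (hA : 2 ≤ rdeg A) (h : IsPow A) : ¬ NoExc A := by
  intro hE
  have key : ∀ (B : RatFunc ℂ), MobConj A B →
      (∀ q, (pmap B q = ((0 : ℂ) : OnePoint ℂ) ∨ pmap B q = OnePoint.infty) ↔
        (q = ((0 : ℂ) : OnePoint ℂ) ∨ q = OnePoint.infty)) → False := by
    rintro B ⟨μ, hμ, hc⟩ hB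
    have hcomm : ∀ p, pmap μ (pmap A p) = pmap B (pmap μ p) := by
      intro p
      rw [← pmap_comp hPT (by omega), hc, pmap_comp hPT (by omega)]
    refine hE (pmap μ ⁻¹' {((0 : ℂ) : OnePoint ℂ), OnePoint.infty}) ?_ ?_ ?_
    · have h1 : pmap μ ⁻¹' {((0 : ℂ) : OnePoint ℂ), OnePoint.infty} =
          pmap μ ⁻¹' {((0 : ℂ) : OnePoint ℂ)} ∪ pmap μ ⁻¹' {OnePoint.infty} := by
        rw [← Set.preimage_union]
        rfl
      rw [h1]
      exact (fibre_finite hPT (by omega) _).union (fibre_finite hPT (by omega) _)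
    · obtain ⟨x, hx⟩ := pmap_surjective hPT (show 1 ≤ rdeg μ by omega) OnePoint.infty
      exact ⟨x, Or.inr hx⟩
    · ext x
      change (pmap μ (pmap A x) = _ ∨ pmap μ (pmap A x) = _) ↔ (pmap μ x = _ ∨ pmap μ x = _)
      rw [hcomm]
      exact hB _
  rcases h with h | h
  · exact key _ h fun q => h99_pmap_X_pow_mem _ (by omega) q
  · exact key _ h fun q => h99_pmap_inv_X_pow_mem _ (by omega) q

end Pool.Agent.Helper63.Pak
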