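import Pool.Agent.Helper63.Pak.Basic
import Pool.Agent.Helper33.Pak.Towers
import Pool.Agent.Helper33.Pak.RAOmega
import Pool.Agent.Helper63.Pak.RARat

/-! Piece MC of MP_005844_an: conjugation invariance. -/

namespace Pool.Agent.Helper63.Pak

open IntermediateField

variable {Ω : Type} [Field Ω] [Algebra ℂ Ω]

theorem h99_adjoin_ev_of_rdeg_one {μ : RatFunc ℂ} (hμ : rdeg μ = 1) {y : Ω}
    (hy : Transcendental ℂ y) : ℂ⟮ev μ y⟯ = ℂ⟮y⟯ := by
  apply le_antisymm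
  · rw [adjoin_simple_le_iff]
    exact ev_mem (mem_adjoin_simple_self ℂ y)
  · have h := relfinrank_ev (A := μ) hy (by omega)
    rw [hμ] at h
    rwa [relfinrank_eq_one_iff] at h

theorem h99_exists_left_inverse [CurveUniverse Ω] {μ : RatFunc ℂ} (hμ : rdeg μ = 1) {y : Ω}
    (hy : Transcendental ℂ y) : ∃ Q : RatFunc ℂ, comp Q μ = RatFunc.X := by
  have h1 : y ∈ ℂ⟮ev μ y⟯ := by
    rw [h99_adjoin_ev_of_rdeg_one hμ hy]
    exact mem_adjoin_simple_self ℂ y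
  obtain ⟨Q, hQ⟩ := exists_ev_of_mem (transcendental_ev hy (by omega)) h1
  refine ⟨Q, ev_injective hy ?_⟩
  rw [ev_comp hy (by omega), ev_X]
  exact hQ.symm

variable [CurveUniverse Ω] {A B : RatFunc ℂ}

theorem Tower.mob99 {μ : RatFunc ℂ} (hA : 1 ≤ rdeg A) (hB : 1 ≤ rdeg B) (hμ : rdeg μ = 1)
    (h : comp μ A = comp B μ) {x : ℤ → Ω} (hx : Tower A x) :
    Tower B (fun n => ev μ (x n)) where
  trans n := transcendental_ev (hx.trans n) (by omega)
  step n := by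
    change ev B (ev μ (x (n + 1))) = ev μ (x n)
    rw [← ev_comp (hx.trans _) (by omega), ← h, ev_comp (hx.trans _) hA, hx.step]

theorem RigidU.of_mobConj (hPT : PTFacts Ω) (hA : 2 ≤ rdeg A) (h : MobConj A B)
    (hB : RigidU Ω B) : RigidU Ω A := by
  have hdeg := MobConj.rdeg_eq h
  obtain ⟨μ, hμ, hc⟩ := h
  intro x x' hx hx' h0 hcl
  have h1 := hB (fun n => ev μ (x n)) (fun n => ev μ (x' n)) (hx.mob99 (by omega) (by omega) hμ hc)
    (hx'.mob99 (by omega) (by omega) hμ hc) (by simp only [h0]) (by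
      intro n
      have := hcl n
      change 0 ≤ chi (ℂ⟮ev μ (x n)⟯ ⊔ ℂ⟮ev μ (x' n)⟯)
      rwa [h99_adjoin_ev_of_rdeg_one hμ (hx.trans n), h99_adjoin_ev_of_rdeg_one hμ (hx'.trans n)])
  obtain ⟨Q, hQ⟩ := h99_exists_left_inverse hμ (hx.trans 0)
  have h2 : ∀ z : Ω, Transcendental ℂ z → ev Q (ev μ z) = z := by
    intro z hz
    rw [← ev_comp hz (by omega), hQ, ev_X]
  rw [← h2 _ (hx.trans 1), ← h2 _ (hx'.trans 1)]
  exact congrArg (ev Q) h1

end Pool.Agent.Helper63.Pak
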