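import Pool.Agent.Helper99.Pak.LWDefs
import Pool.Agent.Helper99.Pak.MobInv
import Pool.Agent.Helper99.Pak.Exc

/-! Piece LW-A of MP_005844_an: normal forms of parabolic orbifolds, Moebius invariance. -/

namespace Pool.Agent.Helper63.Pak

open IntermediateField

section Gen

variable {F : Type} [Field F] [Algebra ℂ F]

theorem h99_algHom_ev (φ : F →ₐ[ℂ] F) (Q : RatFunc ℂ) (z : F) : φ (ev Q z) = ev Q (φ z) := by
  rw [ev, ev, RatFunc.eval, RatFunc.eval, map_div₀]
  congr 1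
  · rw [← Polynomial.aeval_def, ← Polynomial.aeval_def, Polynomial.aeval_algHom_apply]
  · rw [← Polynomial.aeval_def, ← Polynomial.aeval_def, Polynomial.aeval_algHom_apply]

theorem IsLattesW.of_mobConj {A B : RatFunc ℂ} (hA : 2 ≤ rdeg A) (h : MobConj A B)
    (hB : IsLattesW B) : IsLattesW A := by
  have hdeg := MobConj.rdeg_eq h
  obtain ⟨ν, hν, hc⟩ := MobConj.symm (by omega) h
  obtain ⟨W, hW, φ, θ, hθ, hφ⟩ := hB
  refine ⟨W, hW, φ, ev ν θ, transcendental_ev hθ (by omega), ?_⟩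
  change φ θ = ev B θ at hφ
  change φ (ev ν θ) = ev A (ev ν θ)
  rw [h99_algHom_ev, hφ, ← ev_comp hθ (by omega), hc, ev_comp hθ (by omega)]

end Gen

variable {Ω : Type} [Field Ω] [Algebra ℂ Ω] [CurveUniverse Ω]
variable {A B μ : RatFunc ℂ}

theorem h99_mob_locDeg (hPT : PTFacts Ω) (hμ : rdeg μ = 1) (q : OnePoint ℂ) : locDeg μ q = 1 := by
  have h1 := riemann_hurwitz hPT (A := μ) (by omega)
  rw [hμ] at h1
  have hfin := crit_finite hPT (A := μ) (by omega)
  have hsupp : (Function.support fun q => locDeg μ q - 1).Finite := by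
    refine hfin.subset fun x hx => ?_
    rw [Function.mem_support] at hx
    rw [Set.mem_ofPred_eq]
    omega
  have h2 : locDeg μ q - 1 = 0 := by
    by_contra hne
    have h3 := single_le_finsum q hsupp (fun _ => Nat.zero_le _)
    omega
  have h4 := locDeg_pos hPT (A := μ) (by omega) q
  omega

theorem h99_mob_bijective (hPT : PTFacts Ω) (hμ : rdeg μ = 1) : Function.Bijective (pmap μ) := by
  refine ⟨fun a b hab => ?_, pmap_surjective hPT (by omega)⟩
  by_contra hne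
  have h1 := sum_fibre hPT (A := μ) (by omega) (pmap μ a)
  have hfin := fibre_finite hPT (A := μ) (by omega) (pmap μ a)
  rw [finsum_mem_congr rfl (fun q _ => h99_mob_locDeg hPT hμ q), hμ,
    finsum_one] at h1
  have h2 : ({a, b} : Set (OnePoint ℂ)).ncard ≤ (pmap μ ⁻¹' {pmap μ a}).ncard := by
    refine Set.ncard_le_ncard ?_ hfin
    intro x hx
    rcases hx with rfl | hx
    · rfl
    · rw [Set.mem_singleton_iff] at hx
      rw [hx]
      exact hab.symm
  rw [Set.ncard_pair hne, h1] at h2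
  omega

/-- the equivalence given by a Moebius transformation -/
noncomputable def h99_mobEquiv (hPT : PTFacts Ω) (hμ : rdeg μ = 1) : OnePoint ℂ ≃ OnePoint ℂ :=
  Equiv.ofBijective _ (h99_mob_bijective hPT hμ)

theorem h99_mobEquiv_apply (hPT : PTFacts Ω) (hμ : rdeg μ = 1) (q : OnePoint ℂ) :
    h99_mobEquiv hPT hμ q = pmap μ q := rfl

theorem h99_pmap_conj (hPT : PTFacts Ω) (hA : 1 ≤ rdeg A) (hμ : rdeg μ = 1)
    (h : comp μ A = comp B μ) (q : OnePoint ℂ) : pmap B (pmap μ q) = pmap μ (pmap A q) := by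
  rw [← pmap_comp hPT (by omega), ← h, pmap_comp hPT hA]

theorem h99_locDeg_conj (hPT : PTFacts Ω) (hA : 1 ≤ rdeg A) (hB : 1 ≤ rdeg B) (hμ : rdeg μ = 1)
    (h : comp μ A = comp B μ) (q : OnePoint ℂ) : locDeg B (pmap μ q) = locDeg A q := by
  have h1 := locDeg_comp hPT (A := μ) (B := A) (by omega) hA q
  have h2 := locDeg_comp hPT (A := B) (B := μ) hB (by omega) q
  rw [h99_mob_locDeg hPT hμ, one_mul] at h1
  rw [h99_mob_locDeg hPT hμ, mul_one] at h2
  rw [← h2, ← h, h1]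

theorem OrbLattes.of_mobConj (hPT : PTFacts Ω) (hA : 2 ≤ rdeg A) (h : MobConj A B)
    (hB : OrbLattes B) : OrbLattes A := by
  have hdeg := MobConj.rdeg_eq h
  obtain ⟨μ, hμ, hc⟩ := h
  obtain ⟨nu, hpos, hfin, hsum, hcov⟩ := hB
  refine ⟨fun q => nu (pmap μ q), fun q => hpos _, ?_, ?_, fun q => ?_⟩
  · exact hfin.preimage (h99_mob_bijective hPT hμ).1.injOn
  · rw [← hsum]
    exact finsum_comp_equiv (h99_mobEquiv hPT hμ) (f := fun q => (1 - 1 / (nu q : ℚ)))
  · change locDeg A q * nu (pmap μ q) = nu (pmap μ (pmap A q))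
    rw [← h99_pmap_conj hPT (by omega) hμ hc, ← hcov,
      h99_locDeg_conj hPT (by omega) (by omega) hμ hc]

theorem SpecialIn.of_mobConj (hPT : PTFacts Ω) (hA : 2 ≤ rdeg A) (h : MobConj A B)
    (hB : SpecialIn Ω B) : SpecialIn Ω A := by
  rcases hB with hB | hB | hB
  · exact Or.inl (hB.of_mobConj hPT hA h)
  · exact Or.inr (Or.inl (IsPow.of_mobConj (by omega) h hB))
  · exact Or.inr (Or.inr (IsCheb.of_mobConj (by omega) h hB))

theorem h99_exists_conj_of_mob (hA : 1 ≤ rdeg A) (hμ : rdeg μ = 1) {y : Ω}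
    (hy : Transcendental ℂ y) : ∃ B, comp μ A = comp B μ := by
  obtain ⟨ν, hν⟩ := h99_exists_left_inverse hμ hy
  refine ⟨comp (comp μ A) ν, ?_⟩
  rw [comp_assoc (by omega), hν, comp_X]

theorem h99_exists_mob_infty (hPT : PTFacts Ω) (c : OnePoint ℂ) :
    ∃ μ : RatFunc ℂ, rdeg μ = 1 ∧ pmap μ c = OnePoint.infty := by
  induction c using OnePoint.rec with
  | infty => exact ⟨RatFunc.X, by rw [← pow_one RatFunc.X, h99_rdeg_X_pow], h99_pmap_X _⟩
  | coe z =>
    refine ⟨comp ((RatFunc.X ^ 1)⁻¹)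
      (algebraMap (Polynomial ℂ) (RatFunc ℂ) (Polynomial.X + Polynomial.C (-z))), ?_, ?_⟩
    · rw [rdeg_comp, h99_rdeg_inv_X_pow, h99_rdeg_algebraMap, Polynomial.natDegree_X_add_C]
    · rw [pmap_comp hPT (by rw [h99_rdeg_algebraMap, Polynomial.natDegree_X_add_C]),
        h99_pmap_algebraMap_some]
      simp only [Polynomial.eval_add, Polynomial.eval_X, Polynomial.eval_C, add_neg_cancel]
      rw [h99_pmap_some, h99_denom_inv_X_pow, if_pos (by simp)]

/-- a Moebius transformation with prescribed values -/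
theorem h99_exists_mob (hPT : PTFacts Ω) {a b c : OnePoint ℂ} (hab : a ≠ b) (hac : a ≠ c)
    (hbc : b ≠ c) {x y : ℂ} (hxy : x ≠ y) :
    ∃ μ : RatFunc ℂ, rdeg μ = 1 ∧ pmap μ a = (x : OnePoint ℂ) ∧ pmap μ b = (y : OnePoint ℂ) ∧
      pmap μ c = OnePoint.infty := by
  obtain ⟨μ₁, h1, h2⟩ := h99_exists_mob_infty hPT c
  have hinj := (h99_mob_bijective hPT h1).1
  have ha : pmap μ₁ a ≠ OnePoint.infty := fun h => hac (hinj (h.trans h2.symm))
  have hb : pmap μ₁ b ≠ OnePoint.infty := fun h => hbc (hinj (h.trans h2.symm))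
  obtain ⟨a', ha'⟩ := OnePoint.ne_infty_iff_exists.1 ha
  obtain ⟨b', hb'⟩ := OnePoint.ne_infty_iff_exists.1 hb
  have hab' : b' - a' ≠ 0 := by
    intro h
    apply hab
    apply hinj
    rw [← ha', ← hb', sub_eq_zero.1 h]
  have hyx : y - x ≠ 0 := sub_ne_zero.2 hxy.symm
  set k : ℂ := (y - x) / (b' - a') with hk
  have hk0 : k ≠ 0 := div_ne_zero hyx hab'
  set p : Polynomial ℂ := Polynomial.C k * Polynomial.X + Polynomial.C (x - k * a') with hp
  have hpdeg : p.natDegree = 1 := by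
    rw [hp]
    exact Polynomial.natDegree_linear hk0
  refine ⟨comp (algebraMap (Polynomial ℂ) (RatFunc ℂ) p) μ₁, ?_, ?_, ?_, ?_⟩
  · rw [rdeg_comp, h99_rdeg_algebraMap, hpdeg, h1]
  · rw [pmap_comp hPT (by omega), ← ha', h99_pmap_algebraMap_some, hp]
    congr 1
    simp
  · rw [pmap_comp hPT (by omega), ← hb', h99_pmap_algebraMap_some, hp]
    congr 1
    simp only [Polynomial.eval_add, Polynomial.eval_mul, Polynomial.eval_C, Polynomial.eval_X]
    rw [hk]
    field_simp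
    ring
  · rw [pmap_comp hPT (by omega), h2, h99_pmap_algebraMap_infty _ (by rw [hpdeg])]

/-- h99_transport of an orbifold -/
theorem h99_transport (hPT : PTFacts Ω) (hA : 2 ≤ rdeg A) {nu : OnePoint ℂ → ℕ}
    (hcov : ∀ q, locDeg A q * nu q = nu (pmap A q)) (hμ : rdeg μ = 1) :
    ∃ B : RatFunc ℂ, MobConj A B ∧
      ∀ q, locDeg B q * nu ((h99_mobEquiv hPT hμ).symm q) = nu ((h99_mobEquiv hPT hμ).symm (pmap B q)) := by
  obtain ⟨v, hv⟩ : ∃ y : Ω, Transcendental ℂ y := by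
    have h := CurveUniverse.trdeg_eq (Ω := Ω)
    by_contra hcon
    push Not at hcon
    have halg : Algebra.IsAlgebraic ℂ Ω := ⟨fun z => by
      have := hcon z
      rwa [Transcendental, not_not] at this⟩
    rw [trdeg_eq_zero] at h
    exact zero_ne_one h
  obtain ⟨B, hB⟩ := h99_exists_conj_of_mob (A := A) (by omega) hμ hv
  have hconj : MobConj A B := ⟨μ, hμ, hB⟩
  have hdeg := MobConj.rdeg_eq hconj
  refine ⟨B, hconj, fun q => ?_⟩
  obtain ⟨p, rfl⟩ := (h99_mobEquiv hPT hμ).surjective q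
  rw [Equiv.symm_apply_apply, h99_mobEquiv_apply, h99_pmap_conj hPT (by omega) hμ hB,
    h99_locDeg_conj hPT (by omega) (by omega) hμ hB, ← h99_mobEquiv_apply hPT hμ (pmap A p),
    Equiv.symm_apply_apply]
  exact hcov p

section Classify

theorem h99_triple_cases {x y z : ℕ} (hx : 2 ≤ x) (hxy : x ≤ y) (hyz : y ≤ z)
    (h : y * z + x * z + x * y = x * y * z) :
    (x = 3 ∧ y = 3 ∧ z = 3) ∨ (x = 2 ∧ y = 4 ∧ z = 4) ∨ (x = 2 ∧ y = 3 ∧ z = 6) := by
  have hx3 : x ≤ 3 := by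
    by_contra hcon
    have h1 : 4 * (y * z) ≤ x * (y * z) := Nat.mul_le_mul_right _ (by omega)
    have h2 : x * z ≤ y * z := Nat.mul_le_mul_right _ hxy
    have h3 : x * y ≤ y * z := by
      rw [mul_comm]
      exact Nat.mul_le_mul_left _ (hxy.trans hyz)
    have h4 : 0 < y * z := Nat.mul_pos (by omega) (by omega)
    rw [mul_assoc] at h
    omega
  interval_cases x
  · have hy4 : y ≤ 4 := by
      by_contra hcon
      have h1 : 5 * z ≤ y * z := Nat.mul_le_mul_right _ (by omega)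
      have h2 : 2 * y * z = 2 * (y * z) := by ring
      omega
    interval_cases y
    · omega
    · omega
    · omega
  · have hy3 : y ≤ 3 := by
      by_contra hcon
      have h1 : 4 * z ≤ y * z := Nat.mul_le_mul_right _ (by omega)
      have h2 : 3 * y * z = 3 * (y * z) := by ring
      omega
    interval_cases y
    omega

/-- the orbifold has exactly the three cone points `a, b, c` -/
def H99Three (nu : OnePoint ℂ → ℕ) (a b c : OnePoint ℂ) : Prop :=
  a ≠ b ∧ a ≠ c ∧ b ≠ c ∧ 2 ≤ nu a ∧ 2 ≤ nu b ∧ 2 ≤ nu c ∧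
    (∀ q, q ≠ a → q ≠ b → q ≠ c → nu q = 1) ∧
    nu b * nu c + nu a * nu c + nu a * nu b = nu a * nu b * nu c

theorem H99Three.swap12 {nu : OnePoint ℂ → ℕ} {a b c : OnePoint ℂ} (h : H99Three nu a b c) :
    H99Three nu b a c := by
  obtain ⟨h1, h2, h3, h4, h5, h6, h7, h8⟩ := h
  refine ⟨h1.symm, h3, h2, h5, h4, h6, fun q ha hb hc => h7 q hb ha hc, ?_⟩
  rw [mul_comm (nu b) (nu a), ← h8]
  ring

theorem H99Three.swap23 {nu : OnePoint ℂ → ℕ} {a b c : OnePoint ℂ} (h : H99Three nu a b c) :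
    H99Three nu a c b := by
  obtain ⟨h1, h2, h3, h4, h5, h6, h7, h8⟩ := h
  refine ⟨h2, h1, h3.symm, h4, h6, h5, fun q ha hb hc => h7 q ha hc hb, ?_⟩
  rw [mul_assoc, mul_comm (nu c) (nu b), ← mul_assoc, ← h8]
  ring

theorem H99Three.sorted {nu : OnePoint ℂ → ℕ} {a b c : OnePoint ℂ} (h : H99Three nu a b c) :
    ∃ a b c, H99Three nu a b c ∧ nu a ≤ nu b ∧ nu b ≤ nu c := by
  rcases le_total (nu a) (nu b) with h1 | h1 <;> rcases le_total (nu b) (nu c) with h2 | h2 <;>
    rcases le_total (nu a) (nu c) with h3 | h3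
  · exact ⟨a, b, c, h, h1, h2⟩
  · exact ⟨a, b, c, h, h1, h2⟩
  · exact ⟨a, c, b, h.swap23, h3, h2⟩
  · exact ⟨c, a, b, h.swap23.swap12, h3, h1⟩
  · exact ⟨b, a, c, h.swap12, h1, h3⟩
  · exact ⟨b, c, a, h.swap12.swap23, h2, h3⟩
  · exact ⟨c, b, a, h.swap12.swap23.swap12, h2, h1⟩
  · exact ⟨c, b, a, h.swap12.swap23.swap12, h2, h1⟩

theorem h99_orbifold_cases {nu : OnePoint ℂ → ℕ} (hpos : ∀ q, 0 < nu q)
    (hfin : {q | nu q ≠ 1}.Finite) (hsum : ∑ᶠ q, (1 - 1 / (nu q : ℚ)) = 2) :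
    (∃ a b c d : OnePoint ℂ, a ≠ b ∧ a ≠ c ∧ b ≠ c ∧ a ≠ d ∧ b ≠ d ∧ c ≠ d ∧
      nu a = 2 ∧ nu b = 2 ∧ nu c = 2 ∧ nu d = 2 ∧
      ∀ q, q ≠ a → q ≠ b → q ≠ c → q ≠ d → nu q = 1) ∨ ∃ a b c, H99Three nu a b c := by
  classical
  have hS : ∀ q, q ∈ hfin.toFinset ↔ nu q ≠ 1 := fun q => by
    rw [Set.Finite.mem_toFinset, Set.mem_ofPred_eq]
  have hsum' : ∑ q ∈ hfin.toFinset, (1 - 1 / (nu q : ℚ)) = 2 := by
    rw [← hsum]
    refine (finsum_eq_sum_of_support_subset _ ?_).symm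
    intro q hq
    rw [Finset.mem_coe, hS]
    intro h1
    rw [Function.mem_support, h1] at hq
    norm_num at hq
  obtain ⟨S, hSdef⟩ : ∃ S, S = hfin.toFinset := ⟨_, rfl⟩
  rw [← hSdef] at hS hsum'
  have h2 : ∀ q ∈ S, 2 ≤ nu q := fun q hq => by
    have h3 := hpos q
    have h4 := (hS q).1 hq
    omega
  have hlow : ∀ q ∈ S, (1 / 2 : ℚ) ≤ 1 - 1 / (nu q : ℚ) := fun q hq => by
    have h3 : (2 : ℚ) ≤ nu q := by exact_mod_cast h2 q hq
    have h4 : 1 / (nu q : ℚ) ≤ 1 / 2 := one_div_le_one_div_of_le (by norm_num) h3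
    linarith
  have hupp : ∀ q ∈ S, 1 - 1 / (nu q : ℚ) < 1 := fun q hq => by
    have h3 : (0 : ℚ) < nu q := by exact_mod_cast hpos q
    have h4 : 0 < 1 / (nu q : ℚ) := by positivity
    linarith
  have hcard4 : S.card ≤ 4 := by
    have h3 : ∑ q ∈ S, (1 / 2 : ℚ) ≤ ∑ q ∈ S, (1 - 1 / (nu q : ℚ)) := Finset.sum_le_sum hlow
    rw [Finset.sum_const, nsmul_eq_mul, hsum'] at h3
    have h4 : (S.card : ℚ) ≤ 4 := by linarith
    exact_mod_cast h4
  have hne : S.Nonempty := by
    rw [Finset.nonempty_iff_ne_empty]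
    rintro rfl
    rw [Finset.sum_empty] at hsum'
    norm_num at hsum'
  have hcard3 : 3 ≤ S.card := by
    have h3 : ∑ q ∈ S, (1 - 1 / (nu q : ℚ)) < ∑ q ∈ S, (1 : ℚ) :=
      Finset.sum_lt_sum_of_nonempty hne hupp
    rw [Finset.sum_const, nsmul_eq_mul, hsum', mul_one] at h3
    have h4 : 2 < S.card := by exact_mod_cast h3
    omega
  rcases (show S.card = 4 ∨ S.card = 3 by omega) with hc | hc
  · left
    have hall : ∀ q ∈ S, nu q = 2 := by
      have h3 : ∑ q ∈ S, (1 / 2 : ℚ) = ∑ q ∈ S, (1 - 1 / (nu q : ℚ)) := by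
        rw [Finset.sum_const, nsmul_eq_mul, hsum', hc]
        norm_num
      have h4 := (Finset.sum_eq_sum_iff_of_le hlow).1 h3
      intro q hq
      have h5 := h4 q hq
      have h6 : (0 : ℚ) < nu q := by exact_mod_cast hpos q
      have h7 : (nu q : ℚ) = 2 := by
        field_simp at h5
        linarith
      exact_mod_cast h7
    obtain ⟨d, hd⟩ := hne
    have hc3 : (S.erase d).card = 3 := by
      rw [Finset.card_erase_of_mem hd, hc]
    obtain ⟨a, b, c, hab, hac, hbc, habc⟩ := Finset.card_eq_three.1 hc3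
    have ha : a ∈ S.erase d := by rw [habc]; simp
    have hb : b ∈ S.erase d := by rw [habc]; simp
    have hcc : c ∈ S.erase d := by rw [habc]; simp
    refine ⟨a, b, c, d, hab, hac, hbc, Finset.ne_of_mem_erase ha, Finset.ne_of_mem_erase hb,
      Finset.ne_of_mem_erase hcc, hall a (Finset.mem_of_mem_erase ha),
      hall b (Finset.mem_of_mem_erase hb), hall c (Finset.mem_of_mem_erase hcc), hall d hd, ?_⟩
    intro q qa qb qc qd
    by_contra hq
    have h8 : q ∈ S.erase d := Finset.mem_erase.2 ⟨qd, (hS q).2 hq⟩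
    rw [habc] at h8
    simp only [Finset.mem_insert, Finset.mem_singleton] at h8
    rcases h8 with h8 | h8 | h8
    · exact qa h8
    · exact qb h8
    · exact qc h8
  · right
    obtain ⟨a, b, c, hab, hac, hbc, habc⟩ := Finset.card_eq_three.1 hc
    have ha : a ∈ S := by rw [habc]; simp
    have hb : b ∈ S := by rw [habc]; simp
    have hcc : c ∈ S := by rw [habc]; simp
    refine ⟨a, b, c, hab, hac, hbc, h2 a ha, h2 b hb, h2 c hcc, ?_, ?_⟩
    · intro q qa qb qc
      by_contra hq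
      have h8 : q ∈ S := (hS q).2 hq
      rw [habc] at h8
      simp only [Finset.mem_insert, Finset.mem_singleton] at h8
      rcases h8 with h8 | h8 | h8
      · exact qa h8
      · exact qb h8
      · exact qc h8
    · rw [habc, Finset.sum_insert (by simp [hab, hac]), Finset.sum_pair hbc] at hsum'
      have ea : (0 : ℚ) < nu a := by exact_mod_cast hpos a
      have eb : (0 : ℚ) < nu b := by exact_mod_cast hpos b
      have ec : (0 : ℚ) < nu c := by exact_mod_cast hpos c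
      have h9 : (nu b : ℚ) * nu c + nu a * nu c + nu a * nu b = nu a * nu b * nu c := by
        field_simp at hsum'
        linarith
      exact_mod_cast h9

end Classify

/-- after a Moebius conjugation the orbifold is in normal form -/
theorem OrbLattes.exists_normalForm (hPT : PTFacts Ω) (hA : 2 ≤ rdeg A) (h : OrbLattes A) :
    ∃ B : RatFunc ℂ, MobConj A B ∧ ∃ nu : OnePoint ℂ → ℕ, NormalForm nu ∧
      ∀ q, locDeg B q * nu q = nu (pmap B q) := by
  obtain ⟨nu, hpos, hfin, hsum, hcov⟩ := h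
  rcases h99_orbifold_cases hpos hfin hsum with
    ⟨a, b, c, d, hab, hac, hbc, had, hbd, hcd, na, nb, nc, nd, hout⟩ | ⟨a, b, c, h3⟩
  · obtain ⟨μ, hμ, hd⟩ := h99_exists_mob_infty hPT d
    have hinj := (h99_mob_bijective hPT hμ).1
    have hne : ∀ z, z ≠ d → ∃ p : ℂ, (p : OnePoint ℂ) = pmap μ z := fun z hz =>
      OnePoint.ne_infty_iff_exists.1 fun h => hz (hinj (h.trans hd.symm))
    obtain ⟨p₁, hp₁⟩ := hne a had
    obtain ⟨p₂, hp₂⟩ := hne b hbd
    obtain ⟨p₃, hp₃⟩ := hne c hcd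
    obtain ⟨B, hB, hBc⟩ := h99_transport hPT hA hcov hμ
    refine ⟨B, hB, fun q => nu ((h99_mobEquiv hPT hμ).symm q), Or.inl ⟨p₁, p₂, p₃, ?_, ?_, ?_, ?_⟩, hBc⟩
    · rintro rfl
      exact hab (hinj (hp₁.symm.trans hp₂))
    · rintro rfl
      exact hac (hinj (hp₁.symm.trans hp₃))
    · rintro rfl
      exact hbc (hinj (hp₂.symm.trans hp₃))
    · intro q
      obtain ⟨z, rfl⟩ := (h99_mobEquiv hPT hμ).surjective q
      beta_reduce
      rw [Equiv.symm_apply_apply, h99_mobEquiv_apply, hp₁, hp₂, hp₃, ← hd, hinj.eq_iff, hinj.eq_iff,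
        hinj.eq_iff, hinj.eq_iff]
      split_ifs with hz
      · rcases hz with rfl | rfl | rfl | rfl
        · exact na
        · exact nb
        · exact nc
        · exact nd
      · push Not at hz
        exact hout z hz.1 hz.2.1 hz.2.2.1 hz.2.2.2
  · obtain ⟨a, b, c, h3, hle1, hle2⟩ := h3.sorted
    obtain ⟨hab, hac, hbc, ea, eb, ec, hout, heq⟩ := h3
    rcases h99_triple_cases ea hle1 hle2 heq with ⟨ha, hb, hc⟩ | ⟨ha, hb, hc⟩ | ⟨ha, hb, hc⟩
    · obtain ⟨μ, hμ, m1, m2, m3⟩ := h99_exists_mob hPT hab hac hbc (x := 1) (y := -1) (by norm_num)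
      have hinj := (h99_mob_bijective hPT hμ).1
      obtain ⟨B, hB, hBc⟩ := h99_transport hPT hA hcov hμ
      refine ⟨B, hB, fun q => nu ((h99_mobEquiv hPT hμ).symm q), Or.inr (Or.inl ?_), hBc⟩
      intro q
      obtain ⟨z, rfl⟩ := (h99_mobEquiv hPT hμ).surjective q
      beta_reduce
      rw [Equiv.symm_apply_apply, h99_mobEquiv_apply, ← m1, ← m2, ← m3, hinj.eq_iff, hinj.eq_iff,
        hinj.eq_iff]
      split_ifs with hz
      · rcases hz with rfl | rfl | rfl
        · exact ha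
        · exact hb
        · exact hc
      · push Not at hz
        exact hout z hz.1 hz.2.1 hz.2.2
    · obtain ⟨μ, hμ, m1, m2, m3⟩ := h99_exists_mob hPT hab.symm hbc hac (x := 0) (y := 1) (by norm_num)
      have hinj := (h99_mob_bijective hPT hμ).1
      obtain ⟨B, hB, hBc⟩ := h99_transport hPT hA hcov hμ
      refine ⟨B, hB, fun q => nu ((h99_mobEquiv hPT hμ).symm q), Or.inr (Or.inr (Or.inl ?_)), hBc⟩
      intro q
      obtain ⟨z, rfl⟩ := (h99_mobEquiv hPT hμ).surjective q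
      beta_reduce
      rw [Equiv.symm_apply_apply, h99_mobEquiv_apply, ← m1, ← m2, ← m3, hinj.eq_iff, hinj.eq_iff,
        hinj.eq_iff]
      split_ifs with hz hz2
      · rcases hz with rfl | rfl
        · exact hb
        · exact hc
      · rw [hz2]
        exact ha
      · push Not at hz
        exact hout z hz2 hz.1 hz.2
    · obtain ⟨μ, hμ, m1, m2, m3⟩ := h99_exists_mob hPT hab hac hbc (x := 0) (y := 1) (by norm_num)
      have hinj := (h99_mob_bijective hPT hμ).1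
      obtain ⟨B, hB, hBc⟩ := h99_transport hPT hA hcov hμ
      refine ⟨B, hB, fun q => nu ((h99_mobEquiv hPT hμ).symm q), Or.inr (Or.inr (Or.inr ?_)), hBc⟩
      intro q
      obtain ⟨z, rfl⟩ := (h99_mobEquiv hPT hμ).surjective q
      beta_reduce
      rw [Equiv.symm_apply_apply, h99_mobEquiv_apply, ← m1, ← m2, ← m3, hinj.eq_iff, hinj.eq_iff,
        hinj.eq_iff]
      split_ifs with hz hz2 hz3
      · rw [hz]
        exact hc
      · rw [hz2]
        exact hb
      · rw [hz3]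
        exact ha
      · exact hout z hz3 hz2 hz

end Pool.Agent.Helper63.Pak
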