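import Pool.Agent.Helper99.Pak.ExcSmall

/-! Piece X of MP_005844_an, second part: totally invariant sets, powers, polynomials. -/

namespace Pool.Agent.Helper63.Pak

open IntermediateField

section Explicit

theorem h99_comp_algebraMap (p : Polynomial ℂ) (B : RatFunc ℂ) :
    comp (algebraMap (Polynomial ℂ) (RatFunc ℂ) p) B = p.eval₂ RatFunc.C B := by
  rw [comp, RatFunc.eval_algebraMap]
  rfl

theorem h99_comp_algebraMap_algebraMap (p q : Polynomial ℂ) :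
    comp (algebraMap (Polynomial ℂ) (RatFunc ℂ) p) (algebraMap (Polynomial ℂ) (RatFunc ℂ) q) =
      algebraMap (Polynomial ℂ) (RatFunc ℂ) (p.comp q) := by
  rw [h99_comp_algebraMap, Polynomial.comp, Polynomial.hom_eval₂]
  rfl

theorem h99_rdeg_algebraMap (p : Polynomial ℂ) :
    rdeg (algebraMap (Polynomial ℂ) (RatFunc ℂ) p) = p.natDegree := by
  rw [rdeg, RatFunc.num_algebraMap, RatFunc.denom_algebraMap, Polynomial.natDegree_one]
  simp

theorem h99_denom_inv_X_pow (n : ℕ) : (((RatFunc.X : RatFunc ℂ) ^ n)⁻¹).denom = Polynomial.X ^ n := by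
  have h : (RatFunc.X : RatFunc ℂ) ^ n = algebraMap (Polynomial ℂ) (RatFunc ℂ) (Polynomial.X ^ n) := by
    rw [map_pow, RatFunc.algebraMap_X]
  have h0 : (RatFunc.X : RatFunc ℂ) ^ n ≠ 0 := pow_ne_zero _ RatFunc.X_ne_zero
  have h1 := RatFunc.associated_denom_inv h0
  have h2 : ((RatFunc.X : RatFunc ℂ) ^ n).num = Polynomial.X ^ n := by
    rw [h, RatFunc.num_algebraMap]
  rw [h2] at h1
  exact Polynomial.eq_of_monic_of_associated (RatFunc.monic_denom _) (Polynomial.monic_X_pow n) h1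

theorem h99_num_inv_X_pow (n : ℕ) : (((RatFunc.X : RatFunc ℂ) ^ n)⁻¹).num = 1 := by
  have h0 : (RatFunc.X : RatFunc ℂ) ^ n ≠ 0 := pow_ne_zero _ RatFunc.X_ne_zero
  have h1 := RatFunc.num_div_denom (((RatFunc.X : RatFunc ℂ) ^ n)⁻¹)
  rw [h99_denom_inv_X_pow, map_pow, RatFunc.algebraMap_X, div_eq_iff h0, inv_mul_cancel₀ h0] at h1
  exact RatFunc.algebraMap_injective ℂ (by rw [h1, map_one])

theorem h99_rdeg_inv_X_pow (n : ℕ) : rdeg (((RatFunc.X : RatFunc ℂ) ^ n)⁻¹) = n := by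
  rw [rdeg, h99_denom_inv_X_pow, h99_num_inv_X_pow, Polynomial.natDegree_one, Polynomial.natDegree_X_pow]
  simp

theorem h99_rdeg_X_pow (n : ℕ) : rdeg ((RatFunc.X : RatFunc ℂ) ^ n) = n := by
  rw [← RatFunc.algebraMap_X, ← map_pow, h99_rdeg_algebraMap, Polynomial.natDegree_X_pow]

theorem h99_comp_inv_X_pow (n : ℕ) (B : RatFunc ℂ) :
    comp (((RatFunc.X : RatFunc ℂ) ^ n)⁻¹) B = (B ^ n)⁻¹ := by
  rw [comp, RatFunc.eval, h99_denom_inv_X_pow, h99_num_inv_X_pow]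
  simp

theorem h99_comp_X_pow (n : ℕ) (B : RatFunc ℂ) :
    comp ((RatFunc.X : RatFunc ℂ) ^ n) B = B ^ n := by
  rw [← RatFunc.algebraMap_X, ← map_pow, h99_comp_algebraMap]
  simp

theorem h99_pmap_some (A : RatFunc ℂ) (z : ℂ) : pmap A ((z : ℂ) : OnePoint ℂ) =
    open Classical in if A.denom.eval z = 0 then OnePoint.infty
      else ((A.num.eval z / A.denom.eval z : ℂ) : OnePoint ℂ) := rfl

theorem h99_pmap_infty (A : RatFunc ℂ) : pmap A OnePoint.infty =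
    open Classical in if A.denom.coeff (rdeg A) = 0 then OnePoint.infty
      else ((A.num.coeff (rdeg A) / A.denom.coeff (rdeg A) : ℂ) : OnePoint ℂ) := rfl

theorem h99_pmap_algebraMap_some (p : Polynomial ℂ) (z : ℂ) :
    pmap (algebraMap (Polynomial ℂ) (RatFunc ℂ) p) ((z : ℂ) : OnePoint ℂ) =
      ((p.eval z : ℂ) : OnePoint ℂ) := by
  rw [h99_pmap_some, RatFunc.num_algebraMap, RatFunc.denom_algebraMap]
  simp

theorem h99_pmap_algebraMap_infty (p : Polynomial ℂ) (hp : 1 ≤ p.natDegree) :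
    pmap (algebraMap (Polynomial ℂ) (RatFunc ℂ) p) OnePoint.infty = OnePoint.infty := by
  rw [h99_pmap_infty, h99_rdeg_algebraMap, RatFunc.denom_algebraMap, if_pos]
  rw [Polynomial.coeff_one, if_neg (by omega)]

theorem h99_pmap_X (q : OnePoint ℂ) : pmap RatFunc.X q = q := by
  induction q using OnePoint.rec with
  | infty =>
    rw [← RatFunc.algebraMap_X]
    exact h99_pmap_algebraMap_infty _ (by rw [Polynomial.natDegree_X])
  | coe z =>
    rw [← RatFunc.algebraMap_X, h99_pmap_algebraMap_some, Polynomial.eval_X]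

theorem h99_pmap_X_pow_mem (n : ℕ) (hn : 1 ≤ n) (q : OnePoint ℂ) :
    (pmap ((RatFunc.X : RatFunc ℂ) ^ n) q = ((0 : ℂ) : OnePoint ℂ) ∨
      pmap ((RatFunc.X : RatFunc ℂ) ^ n) q = OnePoint.infty) ↔
    (q = ((0 : ℂ) : OnePoint ℂ) ∨ q = OnePoint.infty) := by
  rw [← RatFunc.algebraMap_X, ← map_pow]
  induction q using OnePoint.rec with
  | infty =>
    rw [h99_pmap_algebraMap_infty _ (by rw [Polynomial.natDegree_X_pow]; exact hn)]
  | coe z =>
    rw [h99_pmap_algebraMap_some, Polynomial.eval_pow, Polynomial.eval_X]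
    simp only [OnePoint.coe_eq_coe, OnePoint.coe_ne_infty, or_false]
    exact pow_eq_zero_iff (by omega)

theorem h99_pmap_inv_X_pow_mem (n : ℕ) (hn : 1 ≤ n) (q : OnePoint ℂ) :
    (pmap (((RatFunc.X : RatFunc ℂ) ^ n)⁻¹) q = ((0 : ℂ) : OnePoint ℂ) ∨
      pmap (((RatFunc.X : RatFunc ℂ) ^ n)⁻¹) q = OnePoint.infty) ↔
    (q = ((0 : ℂ) : OnePoint ℂ) ∨ q = OnePoint.infty) := by
  induction q using OnePoint.rec with
  | infty =>
    rw [h99_pmap_infty, h99_rdeg_inv_X_pow, h99_denom_inv_X_pow, h99_num_inv_X_pow, if_neg (by simp)]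
    have h : (1 : Polynomial ℂ).coeff n = 0 := by rw [Polynomial.coeff_one, if_neg (by omega)]
    rw [h, zero_div]
    simp
  | coe z =>
    rw [h99_pmap_some, h99_denom_inv_X_pow, h99_num_inv_X_pow, Polynomial.eval_pow, Polynomial.eval_X]
    by_cases hz : z = 0
    · rw [if_pos (by rw [hz, zero_pow (by omega)]), hz]
      simp
    · rw [if_neg (pow_ne_zero _ hz)]
      simp [hz]

end Explicit

variable {Ω : Type} [Field Ω] [Algebra ℂ Ω] [CurveUniverse Ω]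
variable {A A' A'' : RatFunc ℂ}

/-- `A'` is conjugate to `A` by `φ` -/
def H99ConjVia (A A' : RatFunc ℂ) (φ : OnePoint ℂ ≃ OnePoint ℂ) : Prop :=
  MobConj A A' ∧ rdeg A' = rdeg A ∧ ∀ p, pmap A' (φ p) = φ (pmap A p)

theorem H99ConjVia.refl (A : RatFunc ℂ) : H99ConjVia A A (Equiv.refl _) :=
  ⟨MobConj.refl A, rfl, fun _ => rfl⟩

theorem H99ConjVia.trans {φ ψ : OnePoint ℂ ≃ OnePoint ℂ} (hA : 1 ≤ rdeg A) (h : H99ConjVia A A' φ)
    (h' : H99ConjVia A' A'' ψ) : H99ConjVia A A'' (φ.trans ψ) :=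
  ⟨MobConj.trans hA h.1 h'.1, h'.2.1.trans h.2.1, fun p => by
    rw [Equiv.trans_apply, h'.2.2, h.2.2, Equiv.trans_apply]⟩

theorem H99ConjVia.preimage {φ : OnePoint ℂ ≃ OnePoint ℂ} (h : H99ConjVia A A' φ)
    {T : Set (OnePoint ℂ)} (hT : pmap A ⁻¹' T = T) : pmap A' ⁻¹' (φ '' T) = φ '' T := by
  ext x
  obtain ⟨p, rfl⟩ := φ.surjective x
  rw [Set.mem_preimage, h.2.2, φ.injective.mem_set_image, φ.injective.mem_set_image]
  exact Set.ext_iff.1 hT p

theorem h99_conjVia_of_mob (hPT : PTFacts Ω) {μ ν : RatFunc ℂ} (hμ : rdeg μ = 1) (hν : rdeg ν = 1)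
    (h1 : comp μ ν = RatFunc.X) (h2 : comp ν μ = RatFunc.X) (hA : 1 ≤ rdeg A) :
    ∃ (A' : RatFunc ℂ) (φ : OnePoint ℂ ≃ OnePoint ℂ), H99ConjVia A A' φ ∧ ∀ p, φ p = pmap μ p := by
  refine ⟨comp (comp μ A) ν,
    { toFun := pmap μ
      invFun := pmap ν
      left_inv := fun p => by
        rw [← pmap_comp hPT (by omega), h2, h99_pmap_X]
      right_inv := fun p => by
        rw [← pmap_comp hPT (by omega), h1, h99_pmap_X] }, ⟨⟨μ, hμ, ?_⟩, ?_, ?_⟩, fun p => rfl⟩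
  · rw [comp_assoc (by omega), h2, comp_X]
  · rw [rdeg_comp, rdeg_comp, hμ, hν, one_mul, mul_one]
  · intro p
    change pmap (comp (comp μ A) ν) (pmap μ p) = pmap μ (pmap A p)
    rw [pmap_comp hPT (by omega), pmap_comp hPT (by omega), ← pmap_comp hPT (B := μ) (by omega), h2,
      h99_pmap_X]

theorem h99_conjVia_translate (hPT : PTFacts Ω) (hA : 1 ≤ rdeg A) (c : ℂ) :
    ∃ (A' : RatFunc ℂ) (φ : OnePoint ℂ ≃ OnePoint ℂ), H99ConjVia A A' φ ∧
      φ OnePoint.infty = OnePoint.infty ∧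
      ∀ z : ℂ, φ ((z : ℂ) : OnePoint ℂ) = ((z + c : ℂ) : OnePoint ℂ) := by
  have key : ∀ a b : ℂ, a + b = 0 →
      comp (algebraMap (Polynomial ℂ) (RatFunc ℂ) (Polynomial.X + Polynomial.C a))
        (algebraMap (Polynomial ℂ) (RatFunc ℂ) (Polynomial.X + Polynomial.C b)) = RatFunc.X := by
    intro a b hab
    rw [h99_comp_algebraMap_algebraMap, Polynomial.add_comp, Polynomial.X_comp, Polynomial.C_comp,
      add_assoc, ← Polynomial.C_add, add_comm b a, hab, Polynomial.C_0, add_zero,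
      RatFunc.algebraMap_X]
  obtain ⟨A', φ, h1, h2⟩ := h99_conjVia_of_mob (A := A) hPT
    (μ := algebraMap (Polynomial ℂ) (RatFunc ℂ) (Polynomial.X + Polynomial.C c))
    (ν := algebraMap (Polynomial ℂ) (RatFunc ℂ) (Polynomial.X + Polynomial.C (-c)))
    (by rw [h99_rdeg_algebraMap, Polynomial.natDegree_X_add_C])
    (by rw [h99_rdeg_algebraMap, Polynomial.natDegree_X_add_C])
    (key _ _ (by ring)) (key _ _ (by ring)) hA
  refine ⟨A', φ, h1, ?_, fun z => ?_⟩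
  · rw [h2]
    exact h99_pmap_algebraMap_infty _ (by rw [Polynomial.natDegree_X_add_C])
  · rw [h2, h99_pmap_algebraMap_some]
    simp

theorem h99_conjVia_invert (hPT : PTFacts Ω) (hA : 1 ≤ rdeg A) :
    ∃ (A' : RatFunc ℂ) (φ : OnePoint ℂ ≃ OnePoint ℂ), H99ConjVia A A' φ ∧
      φ ((0 : ℂ) : OnePoint ℂ) = OnePoint.infty := by
  have key : comp (((RatFunc.X : RatFunc ℂ) ^ 1)⁻¹) (((RatFunc.X : RatFunc ℂ) ^ 1)⁻¹) =
      RatFunc.X := by
    rw [h99_comp_inv_X_pow, pow_one, inv_inv, pow_one]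
  obtain ⟨A', φ, h1, h2⟩ := h99_conjVia_of_mob (A := A) hPT (h99_rdeg_inv_X_pow 1) (h99_rdeg_inv_X_pow 1)
    key key hA
  refine ⟨A', φ, h1, ?_⟩
  rw [h2, h99_pmap_some, h99_denom_inv_X_pow, if_pos (by simp)]

theorem h99_exists_conj_move (hPT : PTFacts Ω) (hA : 1 ≤ rdeg A) (b : OnePoint ℂ) :
    ∃ (A' : RatFunc ℂ) (φ : OnePoint ℂ ≃ OnePoint ℂ), H99ConjVia A A' φ ∧ φ b = OnePoint.infty := by
  induction b using OnePoint.rec with
  | infty => exact ⟨A, Equiv.refl _, H99ConjVia.refl A, rfl⟩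
  | coe z =>
    obtain ⟨A₁, φ₁, h1, -, h2⟩ := h99_conjVia_translate hPT hA (-z)
    obtain ⟨A₂, φ₂, h3, h4⟩ := h99_conjVia_invert (A := A₁) hPT (by rw [h1.2.1]; exact hA)
    refine ⟨A₂, φ₁.trans φ₂, h1.trans hA h3, ?_⟩
    rw [Equiv.trans_apply, h2, add_neg_cancel, h4]

theorem h99_exists_conj_move2 (hPT : PTFacts Ω) (hA : 1 ≤ rdeg A) {a b : OnePoint ℂ} (hab : a ≠ b) :
    ∃ (A' : RatFunc ℂ) (φ : OnePoint ℂ ≃ OnePoint ℂ), H99ConjVia A A' φ ∧
      φ a = ((0 : ℂ) : OnePoint ℂ) ∧ φ b = OnePoint.infty := by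
  obtain ⟨A₁, φ₁, h1, h2⟩ := h99_exists_conj_move hPT hA b
  have h3 : φ₁ a ≠ OnePoint.infty := fun h => hab (φ₁.injective (h.trans h2.symm))
  obtain ⟨w, hw⟩ := OnePoint.ne_infty_iff_exists.1 h3
  obtain ⟨A₂, φ₂, h4, h5, h6⟩ := h99_conjVia_translate (A := A₁) hPT (by rw [h1.2.1]; exact hA) (-w)
  refine ⟨A₂, φ₁.trans φ₂, h1.trans hA h4, ?_, ?_⟩
  · rw [Equiv.trans_apply, ← hw, h6, add_neg_cancel]
  · rw [Equiv.trans_apply, h2, h5]

end Pool.Agent.Helper63.Pak
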