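import Pool.Agent.Helper63.Pak.Basic
import Pool.Agent.Helper63.Pak.Statement

/-! MP_005844_an, pieces LW: definitions (verbatim from helper63's SpecLW; `IsLattesW` is in `Statement.lean`,
`OrbLattes` in `Defs.lean`). -/

namespace Pool.Agent.Helper63.Pak

open Classical in
/-- the four normal forms of a parabolic orbifold -/
def NormalForm (nu : OnePoint ℂ → ℕ) : Prop :=
  (∃ p₁ p₂ p₃ : ℂ, p₁ ≠ p₂ ∧ p₁ ≠ p₃ ∧ p₂ ≠ p₃ ∧ ∀ q : OnePoint ℂ,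
    nu q = if q = (p₁ : OnePoint ℂ) ∨ q = (p₂ : OnePoint ℂ) ∨ q = (p₃ : OnePoint ℂ) ∨
      q = OnePoint.infty then 2 else 1) ∨
  (∀ q : OnePoint ℂ, nu q = if q = ((1 : ℂ) : OnePoint ℂ) ∨ q = ((-1 : ℂ) : OnePoint ℂ) ∨
      q = OnePoint.infty then 3 else 1) ∨
  (∀ q : OnePoint ℂ, nu q = if q = ((0 : ℂ) : OnePoint ℂ) ∨ q = OnePoint.infty then 4
      else if q = ((1 : ℂ) : OnePoint ℂ) then 2 else 1) ∨
  (∀ q : OnePoint ℂ, nu q = if q = OnePoint.infty then 6 else if q = ((1 : ℂ) : OnePoint ℂ) then 3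
      else if q = ((0 : ℂ) : OnePoint ℂ) then 2 else 1)

end Pool.Agent.Helper63.Pak
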