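import Pool.Agent.Helper63.Pak.Basic
import Pool.Agent.Helper33.Pak.Towers
import Pool.Agent.Helper33.Pak.RAOmega
import Pool.Agent.Helper63.Pak.RARat

/-! Piece X of MP_005844_an, first part: exceptional points from small fibres. -/

namespace Pool.Agent.Helper63.Pak

open IntermediateField

variable {Ω : Type} [Field Ω] [Algebra ℂ Ω] [CurveUniverse Ω]
variable {A : RatFunc ℂ}

/-- totally ramified values: at most two -/
theorem h99_totram_bound (hPT : PTFacts Ω) (hA : 2 ≤ rdeg A) :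
    {p : OnePoint ℂ | (pmap A ⁻¹' {p}).ncard = 1}.Finite ∧
      {p : OnePoint ℂ | (pmap A ⁻¹' {p}).ncard = 1}.ncard ≤ 2 := by
  classical
  have hcrit := crit_finite hPT (show 1 ≤ rdeg A by omega)
  set D : Set (OnePoint ℂ) := {q | locDeg A q = rdeg A} with hD
  have hDsub : D ⊆ {q | locDeg A q ≠ 1} := fun q hq => by
    rw [hD, Set.mem_ofPred_eq] at hq
    rw [Set.mem_ofPred_eq]
    omega
  have hDfin : D.Finite := hcrit.subset hDsub
  have hrh := riemann_hurwitz hPT (show 1 ≤ rdeg A by omega)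
  have h1 : D.ncard * (rdeg A - 1) ≤ 2 * rdeg A - 2 := by
    rw [← hrh, finsum_eq_sum_of_support_subset (s := hcrit.toFinset)]
    · have h2 : hDfin.toFinset ⊆ hcrit.toFinset := by
        intro q hq
        rw [Set.Finite.mem_toFinset] at hq ⊢
        exact hDsub hq
      calc D.ncard * (rdeg A - 1) = ∑ q ∈ hDfin.toFinset, (locDeg A q - 1) := by
            rw [Finset.sum_congr rfl (g := fun _ => rdeg A - 1), Finset.sum_const, smul_eq_mul,
              Set.ncard_eq_toFinset_card _ hDfin]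
            intro q hq
            rw [Set.Finite.mem_toFinset] at hq
            rw [show locDeg A q = rdeg A from hq]
        _ ≤ _ := Finset.sum_le_sum_of_subset h2
    · intro q hq
      rw [Function.mem_support] at hq
      simp only [Set.Finite.coe_toFinset, Set.mem_ofPred_eq]
      omega
  have hDcard : D.ncard ≤ 2 := by
    by_contra hcon
    have h3 : 3 * (rdeg A - 1) ≤ D.ncard * (rdeg A - 1) := Nat.mul_le_mul_right _ (by omega)
    omega
  have hsub : {p : OnePoint ℂ | (pmap A ⁻¹' {p}).ncard = 1} ⊆ pmap A '' D := by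
    intro p hp
    obtain ⟨p', hp'⟩ := Set.ncard_eq_one.1 (show (pmap A ⁻¹' {p}).ncard = 1 from hp)
    have h4 := sum_fibre hPT (show 1 ≤ rdeg A by omega) p
    rw [hp', finsum_mem_singleton] at h4
    refine ⟨p', h4, ?_⟩
    have h5 : p' ∈ pmap A ⁻¹' {p} := by rw [hp']; rfl
    exact h5
  refine ⟨(hDfin.image _).subset hsub, ?_⟩
  calc _ ≤ (pmap A '' D).ncard := Set.ncard_le_ncard hsub (hDfin.image _)
    _ ≤ D.ncard := Set.ncard_image_le hDfin
    _ ≤ 2 := hDcard

theorem h99_subset_totram (hPT : PTFacts Ω) (hA : 2 ≤ rdeg A) {S : Set (OnePoint ℂ)} (hS : S.Finite)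
    (h : (pmap A ⁻¹' S).ncard = S.ncard) :
    S ⊆ {p : OnePoint ℂ | (pmap A ⁻¹' {p}).ncard = 1} := by
  have hsurj := pmap_surjective hPT (show 1 ≤ rdeg A by omega)
  have hfin : (pmap A ⁻¹' S).Finite := by
    have : pmap A ⁻¹' S = ⋃ p ∈ S, pmap A ⁻¹' {p} := by
      ext x
      simp
    rw [this]
    exact hS.biUnion fun p _ => fibre_finite hPT (by omega) p
  have him : pmap A '' (pmap A ⁻¹' S) = S := Set.image_preimage_eq S hsurj
  have hinj : Set.InjOn (pmap A) (pmap A ⁻¹' S) :=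
    Set.injOn_of_ncard_image_eq (by rw [him, h]) hfin
  intro p hp
  obtain ⟨p', hp'⟩ := hsurj p
  rw [Set.mem_ofPred_eq, Set.ncard_eq_one]
  refine ⟨p', Set.eq_singleton_iff_unique_mem.2 ⟨hp', fun x hx => ?_⟩⟩
  have hx' : pmap A x = p := hx
  exact hinj (by rw [Set.mem_preimage, hx']; exact hp) (by rw [Set.mem_preimage, hp']; exact hp)
    (by rw [hx', hp'])

theorem h99_exc_of_eq {f : OnePoint ℂ → OnePoint ℂ} (hf : Function.Surjective f) {q : OnePoint ℂ}
    (hfin : ∀ k, (f^[k] ⁻¹' {q}).Finite) {i m : ℕ} (hm : 1 ≤ m)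
    (h : f^[i] ⁻¹' {q} = f^[i + m] ⁻¹' {q}) :
    ∃ T : Set (OnePoint ℂ), T.Finite ∧ q ∈ T ∧ f ⁻¹' T = T := by
  set T : Set (OnePoint ℂ) := {x | ∃ j, i ≤ j ∧ j < i + m ∧ f^[j] x = q} with hT
  have hiff : ∀ x, f^[i] x = q ↔ f^[i + m] x = q := fun x => by
    have := Set.ext_iff.1 h x
    simpa using this
  have hinv : f ⁻¹' T = T := by
    ext x
    rw [Set.mem_preimage, hT, Set.mem_ofPred_eq, Set.mem_ofPred_eq]
    constructor
    · rintro ⟨j, hj1, hj2, hj3⟩
      have hj4 : f^[j + 1] x = q := by rwa [Function.iterate_succ_apply]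
      by_cases hjm : j + 1 < i + m
      · exact ⟨j + 1, by omega, hjm, hj4⟩
      · have hj5 : j + 1 = i + m := by omega
        rw [hj5] at hj4
        exact ⟨i, le_rfl, by omega, (hiff x).2 hj4⟩
    · rintro ⟨j, hj1, hj2, hj3⟩
      by_cases hji : j = i
      · subst hji
        have hj4 := (hiff x).1 hj3
        refine ⟨j + m - 1, by omega, by omega, ?_⟩
        rw [← Function.iterate_succ_apply, show (j + m - 1).succ = j + m by omega]
        exact hj4
      · refine ⟨j - 1, by omega, by omega, ?_⟩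
        rw [← Function.iterate_succ_apply, show (j - 1).succ = j by omega]
        exact hj3
  refine ⟨T, ?_, ?_, hinv⟩
  · have : T ⊆ ⋃ j ∈ Set.Iio (i + m), f^[j] ⁻¹' {q} := by
      rintro x ⟨j, hj1, hj2, hj3⟩
      rw [Set.mem_iUnion₂]
      exact ⟨j, hj2, hj3⟩
    exact ((Set.finite_Iio (i + m)).biUnion fun j _ => hfin j).subset this
  · obtain ⟨x, hx⟩ := hf.iterate i q
    have hxT : x ∈ T := ⟨i, le_rfl, by omega, hx⟩
    have hstep : ∀ k : ℕ, f^[k] x ∈ T := by
      intro k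
      induction k with
      | zero => exact hxT
      | succ k ih =>
        rw [Function.iterate_succ_apply']
        rw [← hinv] at ih
        exact ih
    rw [← hx]
    exact hstep i

theorem exc_of_small_fibres (hPT : PTFacts Ω) (hA : 2 ≤ rdeg A) {q : OnePoint ℂ}
    (h : ∀ k ≤ 4, ((pmap A)^[k] ⁻¹' {q}).ncard ≤ 2) :
    ∃ T : Set (OnePoint ℂ), T.Finite ∧ q ∈ T ∧ pmap A ⁻¹' T = T := by
  have hsurj := pmap_surjective hPT (show 1 ≤ rdeg A by omega)
  have hfin : ∀ k, ((pmap A)^[k] ⁻¹' {q}).Finite := fun k => iter_fibre_finite hPT (by omega) k q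
  obtain ⟨hTfin, hTcard⟩ := h99_totram_bound hPT hA
  set T1 : Set (OnePoint ℂ) := {p : OnePoint ℂ | (pmap A ⁻¹' {p}).ncard = 1} with hT1
  set f := pmap A with hf
  set F : ℕ → Set (OnePoint ℂ) := fun k => f^[k] ⁻¹' {q} with hF
  have hFsucc : ∀ k, F (k + 1) = f ⁻¹' (F k) := by
    intro k
    ext x
    simp only [hF, Set.mem_preimage, Set.mem_singleton_iff, Function.iterate_succ_apply]
  have hmono : ∀ k, (F k).ncard ≤ (F (k + 1)).ncard := by
    intro k
    have h1 : F k = f '' (F (k + 1)) := by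
      rw [hFsucc, Set.image_preimage_eq _ hsurj]
    rw [h1]
    exact Set.ncard_image_le (hfin _)
  have hsub : ∀ k, (F (k + 1)).ncard = (F k).ncard → F k ⊆ T1 := by
    intro k hk
    rw [hFsucc] at hk
    exact h99_subset_totram hPT hA (hfin k) hk
  have h0 : (F 0).ncard = 1 := by
    rw [Set.ncard_eq_one]
    exact ⟨q, rfl⟩
  have hF0 : F 0 = {q} := rfl
  have c1 : (F 0).ncard ≤ (F 1).ncard := hmono 0
  have c2 : (F 1).ncard ≤ (F 2).ncard := hmono 1
  have c3 : (F 2).ncard ≤ (F 3).ncard := hmono 2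
  have c4 : (F 3).ncard ≤ (F 4).ncard := hmono 3
  have d1 : (F 1).ncard ≤ 2 := h 1 (by norm_num)
  have d2 : (F 2).ncard ≤ 2 := h 2 (by norm_num)
  have d3 : (F 3).ncard ≤ 2 := h 3 (by norm_num)
  have d4 : (F 4).ncard ≤ 2 := h 4 (by norm_num)
  have fin : ∀ i m : ℕ, 1 ≤ m → F i = F (i + m) →
      ∃ T : Set (OnePoint ℂ), T.Finite ∧ q ∈ T ∧ f ⁻¹' T = T :=
    fun i m hm heq => h99_exc_of_eq hsurj hfin hm heq
  have hcases : (F 3).ncard = 1 ∨ (F 3).ncard = 2 := by omega
  rcases hcases with h3 | h3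
  · have e2 : (F 2).ncard = 1 := by omega
    have e1 : (F 1).ncard = 1 := by omega
    obtain ⟨a0, ha0⟩ := Set.ncard_eq_one.1 h0
    obtain ⟨a1, ha1⟩ := Set.ncard_eq_one.1 e1
    obtain ⟨a2, ha2⟩ := Set.ncard_eq_one.1 e2
    have m0 : a0 ∈ T1 := hsub 0 (show (F 1).ncard = (F 0).ncard by omega) (by rw [ha0]; rfl)
    have m1 : a1 ∈ T1 := hsub 1 (show (F 2).ncard = (F 1).ncard by omega) (by rw [ha1]; rfl)
    have m2 : a2 ∈ T1 := hsub 2 (show (F 3).ncard = (F 2).ncard by omega) (by rw [ha2]; rfl)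
    by_cases h01 : a0 = a1
    · exact fin 0 1 le_rfl (by rw [ha0, zero_add, ha1, h01])
    by_cases h12 : a1 = a2
    · exact fin 1 1 le_rfl (by rw [ha1, show 1 + 1 = 2 from rfl, ha2, h12])
    by_cases h02 : a0 = a2
    · exact fin 0 2 (by norm_num) (by rw [ha0, zero_add, ha2, h02])
    exfalso
    have h5 : ({a0, a1, a2} : Set (OnePoint ℂ)).ncard ≤ T1.ncard := by
      refine Set.ncard_le_ncard ?_ hTfin
      intro z hz
      rcases hz with rfl | rfl | hz
      · exact m0
      · exact m1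
      · rw [Set.mem_singleton_iff] at hz
        rw [hz]
        exact m2
    rw [Set.ncard_eq_three.2 ⟨a0, a1, a2, h01, h02, h12, rfl⟩] at h5
    omega
  · have e4 : (F 4).ncard = 2 := by omega
    have s3 : F 3 ⊆ T1 := hsub 3 (show (F 4).ncard = (F 3).ncard by omega)
    have t3 : F 3 = T1 := Set.eq_of_subset_of_ncard_le s3 (by omega) hTfin
    have hcases2 : (F 2).ncard = 1 ∨ (F 2).ncard = 2 := by omega
    rcases hcases2 with h2 | h2
    · have e1 : (F 1).ncard = 1 := by omega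
      obtain ⟨a1, ha1⟩ := Set.ncard_eq_one.1 e1
      obtain ⟨a2, ha2⟩ := Set.ncard_eq_one.1 h2
      have m0 : q ∈ T1 := hsub 0 (show (F 1).ncard = (F 0).ncard by omega) rfl
      have m1 : a1 ∈ T1 := hsub 1 (show (F 2).ncard = (F 1).ncard by omega) (by rw [ha1]; rfl)
      rw [← t3] at m1
      have g1 : f a1 = q := by
        have : a1 ∈ F 1 := by rw [ha1]; rfl
        exact this
      have g2 : f a1 = a2 := by
        rw [hFsucc, ha2] at m1
        exact m1
      exact fin 0 2 (by norm_num) (by rw [hF0, zero_add, ha2, ← g2, g1])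
    · have s2 : F 2 ⊆ T1 := hsub 2 (show (F 3).ncard = (F 2).ncard by omega)
      have t2 : F 2 = T1 := Set.eq_of_subset_of_ncard_le s2 (by omega) hTfin
      exact fin 2 1 le_rfl (by rw [t2, ← t3])

end Pool.Agent.Helper63.Pak
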